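import Mathlib

/-!
# Rational integrability of reciprocals of Fermat polynomials

Over a field of characteristic zero, `1 / (x_1^n + ⋯ + x_m^n)` is a sum of partial derivatives of
rational functions exactly when `n ≠ m`.
-/

namespace Pool.Agent.Results.MP_4362c3_ag.FermatReciprocal

open MvPolynomial

section Defs

variable (k : Type*) [Field k] (m : ℕ)

/-- The field of rational functions in `m` variables over `k`. -/
abbrev RF : Type _ := FractionRing (MvPolynomial (Fin m) k)

/-- The variable `x_i` as a rational function. -/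
noncomputable def xvar (i : Fin m) : RF k m :=
  algebraMap (MvPolynomial (Fin m) k) (RF k m) (X i)

/-- `δ` is the family of the usual partial derivations of the field of rational functions: the
`k`-derivations with `δ i (x_j) = 1` if `i = j` and `0` otherwise. -/
def IsPartials (δ : Fin m → Derivation k (RF k m) (RF k m)) : Prop :=
  ∀ i j, δ i (xvar k m j) = if i = j then 1 else 0

/-- `f` is rationally integrable: a sum of partial derivatives of rational functions. -/
def RationallyIntegrable (f : RF k m) : Prop :=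
  ∃ δ : Fin m → Derivation k (RF k m) (RF k m), IsPartials k m δ ∧
    ∃ u : Fin m → RF k m, f = ∑ i, δ i (u i)

end Defs

section CharP

/-- the polynomial identity obtained by clearing denominators -/
def Ident {R : Type*} [CommRing R] {m : ℕ} (D : MvPolynomial (Fin m) R)
    (N : Fin m → MvPolynomial (Fin m) R) : Prop :=
  D ^ 2 = (∑ i, X i ^ m) * ∑ i, (D * pderiv i (N i) - N i * pderiv i D)

variable {κ : Type*} [Field κ] {m : ℕ} (p : ℕ) [hp : Fact p.Prime] [CharP κ p]

lemma coeff_pow_mul (H G : MvPolynomial (Fin m) κ) (e : Fin m →₀ ℕ) :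
    coeff e (H ^ p * G) = ∑ a ∈ H.support,
      if p • a ≤ e then (coeff a H) ^ p * coeff (e - p • a) G else 0 := by
  have h1 : H ^ p = ∑ a ∈ H.support, monomial (p • a) ((coeff a H) ^ p) := by
    conv_lhs => rw [H.as_sum]
    rw [sum_pow_char p]
    refine Finset.sum_congr rfl fun a _ => ?_
    rw [monomial_pow]
  rw [h1, Finset.sum_mul, coeff_sum]
  refine Finset.sum_congr rfl fun a _ => ?_
  rw [coeff_monomial_mul']

/-- exponents all of whose entries are `-1` modulo `p` -/
def EE (b : Fin m →₀ ℕ) : Prop := ∀ i, p ∣ b i + 1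

lemma EE_sub {a e : Fin m →₀ ℕ} (he : EE p e) (hae : p • a ≤ e) : EE p (e - p • a) := by
  intro i
  have h1 := he i
  have h2 : p * a i ≤ e i := by simpa using hae i
  have h3 : (e - p • a) i + 1 = e i + 1 - p * a i := by
    simp only [Finsupp.coe_tsub, Finsupp.coe_smul, Pi.sub_apply, Pi.smul_apply, smul_eq_mul]
    omega
  rw [h3]
  exact Nat.dvd_sub h1 (Dvd.intro _ rfl)

lemma coeff_pow_mul_eq_zero (H G : MvPolynomial (Fin m) κ) (hG : ∀ b, EE p b → coeff b G = 0)
    {e : Fin m →₀ ℕ} (he : EE p e) : coeff e (H ^ p * G) = 0 := by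
  rw [coeff_pow_mul]
  refine Finset.sum_eq_zero fun a _ => ?_
  split_ifs with h
  · rw [hG _ (EE_sub p he h), mul_zero]
  · rfl

lemma coeff_pderiv_eq_zero (G : MvPolynomial (Fin m) κ) (i : Fin m) {b : Fin m →₀ ℕ}
    (hb : EE p b) : coeff b (pderiv i G) = 0 := by
  rw [coeff_pderiv]
  have : ((b i : κ) + 1) = 0 := by
    have := (CharP.cast_eq_zero_iff κ p (b i + 1)).2 (hb i)
    simpa using this
  rw [this, mul_zero]

/-- the extreme exponent -/
noncomputable def dstar (m p : ℕ) : Fin m →₀ ℕ := Finsupp.equivFunOnFinite.symm fun _ => p - 1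

lemma dstar_apply (i : Fin m) : dstar m p i = p - 1 := rfl

lemma EE_dstar : EE p (dstar m p) := by
  intro i
  rw [dstar_apply, Nat.sub_add_cancel hp.out.one_lt.le]

lemma coeff_pow_mul_dstar (H G : MvPolynomial (Fin m) κ)
    (hG : ∀ b, EE p b → b ≠ dstar m p → coeff b G = 0) (a : Fin m →₀ ℕ) (ha : a ∈ H.support) :
    coeff (p • a + dstar m p) (H ^ p * G) = (coeff a H) ^ p * coeff (dstar m p) G := by
  rw [coeff_pow_mul, Finset.sum_eq_single a]
  · rw [if_pos (by simp)]
    congr 2
    simp
  · intro a' _ hne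
    split_ifs with h
    · rw [hG, mul_zero]
      · apply EE_sub p _ h
        intro i
        have := EE_dstar (m := m) p i
        have h2 : (p • a + dstar m p) i + 1 = p * a i + (dstar m p i + 1) := by
          simp [add_assoc]
        rw [h2]
        exact dvd_add (Dvd.intro _ rfl) this
      · intro h2
        apply hne
        have h3 : p • a' + dstar m p = p • a + dstar m p := by
          calc p • a' + dstar m p = p • a' + (p • a + dstar m p - p • a') := by rw [h2]
            _ = p • a + dstar m p := add_tsub_cancel_of_le h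
        have h4 := add_right_cancel h3
        ext i
        have h5 := DFunLike.congr_fun h4 i
        simp only [Finsupp.coe_smul, Pi.smul_apply, smul_eq_mul] at h5
        exact Nat.eq_of_mul_eq_mul_left hp.out.pos h5
    · rfl
  · intro h
    exact absurd ha h

/-- the Fermat polynomial -/
noncomputable def Fer (R : Type*) [CommRing R] (m : ℕ) : MvPolynomial (Fin m) R := ∑ i, X i ^ m

lemma Fer_isHomogeneous (R : Type*) [CommRing R] (m : ℕ) : (Fer R m).IsHomogeneous m :=
  IsHomogeneous.sum _ _ _ fun i _ => isHomogeneous_X_pow i m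

lemma coeff_Fer_pow_eq_zero {b : Fin m →₀ ℕ} (hb : EE p b) (hne : b ≠ dstar m p) :
    coeff b (Fer κ m ^ (p - 1)) = 0 := by
  by_contra h
  apply hne
  have h1 := (Fer_isHomogeneous κ m).pow (p - 1)
  have h2 := h1.degree_eq_sum_deg_support (mem_support_iff.2 h)
  have h2' : m * (p - 1) = ∑ i, b i := by
    rw [h2]
    refine Finset.sum_subset (Finset.subset_univ _) fun i _ hi => ?_
    simpa using hi
  have h3 : ∀ i, p - 1 ≤ b i := by
    intro i
    have := Nat.le_of_dvd (Nat.succ_pos _) (hb i)
    omega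
  have h4 : ∀ i ∈ Finset.univ, p - 1 = b i := by
    have h5 : ∑ i : Fin m, (p - 1) = ∑ i, b i := by
      rw [← h2']; simp
    exact (Finset.sum_eq_sum_iff_of_le fun i _ => h3 i).1 h5
  ext i
  rw [dstar_apply]
  exact (h4 i (Finset.mem_univ i)).symm

lemma coeff_Fer_pow_dstar (a : ℕ) (ha : p - 1 = m * a) (hm : m ≠ 0) :
    coeff (dstar m p) (Fer κ m ^ (p - 1)) ≠ 0 := by
  have h1 : Fer κ m = expand m (∑ i, X i) := by
    rw [Fer, map_sum]
    simp
  set b : Fin m →₀ ℕ := Finsupp.equivFunOnFinite.symm fun _ => a with hb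
  have h2 : dstar m p = m • b := by
    ext i
    simp [dstar_apply, hb, ha]
  rw [h1, ← map_pow, h2, coeff_expand_smul m hm, coeff_sum_X_pow_of_fintype]
  have h3 : b.sum (fun _ m => m) = p - 1 := by
    rw [Finsupp.sum_fintype _ _ (fun _ => rfl)]
    simp [hb, ha]
  rw [if_pos h3]
  rw [Ne, CharP.cast_eq_zero_iff κ p]
  intro h4
  have h5 : b.multinomial = Nat.multinomial Finset.univ b :=
    Finsupp.multinomial_eq_of_support_subset (Finset.subset_univ _)
  rw [h5] at h4
  have h6 := Nat.multinomial_spec Finset.univ b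
  have h7 : p ∣ (p - 1).factorial := by
    have h8 : ∑ i, b i = p - 1 := by simp [hb, ha]
    rw [← h8, ← h6]
    exact h4.mul_left _
  have h9 := (hp.out.dvd_factorial).1 h7
  have := hp.out.one_lt
  omega

theorem charP_contradiction (hm : m ≠ 0) (a : ℕ) (ha : p - 1 = m * a)
    (D : MvPolynomial (Fin m) κ) (N : Fin m → MvPolynomial (Fin m) κ) (hD : D ≠ 0)
    (h : Ident D N) : False := by
  have hp2 : 2 ≤ p := hp.out.two_le
  obtain ⟨r, rfl⟩ : ∃ r, p = r + 2 := ⟨p - 2, by omega⟩
  have hcast : ((r + 2 : ℕ) : MvPolynomial (Fin m) κ) = 0 := by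
    rw [← map_natCast (C : κ →+* MvPolynomial (Fin m) κ), CharP.cast_eq_zero, map_zero]
  have h1 : D ^ (r + 2) = Fer κ m * ∑ i, pderiv i (N i * D ^ (r + 1)) := by
    have h2 : D ^ (r + 2) = D ^ r * D ^ 2 := by ring
    have h3 : D ^ 2 = Fer κ m * ∑ i, (D * pderiv i (N i) - N i * pderiv i D) := h
    rw [h2, h3, mul_left_comm, Finset.mul_sum]
    congr 1
    refine Finset.sum_congr rfl fun i _ => ?_
    rw [Derivation.leibniz, Derivation.leibniz_pow]
    simp only [smul_eq_mul, nsmul_eq_mul, Nat.add_sub_cancel]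
    have h4 : ((r + 1 : ℕ) : MvPolynomial (Fin m) κ) = -1 := by
      push_cast at hcast ⊢
      linear_combination hcast
    rw [h4]
    ring
  have h5 : D ^ (r + 2) * Fer κ m ^ (r + 1)
      = Fer κ m ^ (r + 2) * ∑ i, pderiv i (N i * D ^ (r + 1)) := by
    rw [h1]; ring
  obtain ⟨a0, ha0⟩ := Finset.nonempty_iff_ne_empty.2
    (fun h => hD (MvPolynomial.support_eq_empty.1 h) : D.support ≠ ∅)
  have h6 := congrArg (coeff ((r + 2) • a0 + dstar m (r + 2))) h5
  have hz : coeff ((r + 2) • a0 + dstar m (r + 2))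
      (Fer κ m ^ (r + 2) * ∑ i, pderiv i (N i * D ^ (r + 1))) = 0 := by
    apply coeff_pow_mul_eq_zero (r + 2)
    · intro b hb
      rw [coeff_sum]
      exact Finset.sum_eq_zero fun i _ => coeff_pderiv_eq_zero (r + 2) _ i hb
    · intro i
      have := EE_dstar (m := m) (r + 2) i
      have h2 : ((r + 2) • a0 + dstar m (r + 2)) i + 1
          = (r + 2) * a0 i + (dstar m (r + 2) i + 1) := by
        simp [add_assoc]
      rw [h2]
      exact dvd_add (Dvd.intro _ rfl) this
  rw [hz] at h6
  have h7 := coeff_pow_mul_dstar (r + 2) D (Fer κ m ^ (r + 2 - 1))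
    (fun b hb hne => coeff_Fer_pow_eq_zero (r + 2) hb hne) a0 ha0
  have h8 : r + 2 - 1 = r + 1 := by omega
  rw [h8] at h7
  rw [h7] at h6
  have h9 := coeff_Fer_pow_dstar (κ := κ) (r + 2) a ha hm
  rw [h8] at h9
  rcases mul_eq_zero.1 h6 with h10 | h10
  · exact (mem_support_iff.1 ha0) (pow_eq_zero_iff (by omega) |>.1 h10)
  · exact h9 h10

end CharP

section Reduction

variable {m : ℕ}

lemma Ident.map {R S : Type*} [CommRing R] [CommRing S] (f : R →+* S)
    {D : MvPolynomial (Fin m) R} {N : Fin m → MvPolynomial (Fin m) R} (h : Ident D N) :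
    Ident (MvPolynomial.map f D) (fun i => MvPolynomial.map f (N i)) := by
  have h1 := congrArg (MvPolynomial.map f) h
  simp only [map_pow, map_mul, map_sum, map_sub, map_X] at h1
  unfold Ident
  simp only [pderiv_map]
  exact h1

lemma Ident.of_map {R S : Type*} [CommRing R] [CommRing S] (f : R →+* S)
    (hf : Function.Injective f)
    {D : MvPolynomial (Fin m) R} {N : Fin m → MvPolynomial (Fin m) R}
    (h : Ident (MvPolynomial.map f D) (fun i => MvPolynomial.map f (N i))) : Ident D N := by
  apply MvPolynomial.map_injective f hf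
  unfold Ident at h
  simp only [pderiv_map] at h
  simp only [map_pow, map_mul, map_sum, map_sub, map_X]
  exact h

lemma Ident.smul {R : Type*} [CommRing R] (c : R)
    {D : MvPolynomial (Fin m) R} {N : Fin m → MvPolynomial (Fin m) R} (h : Ident D N) :
    Ident (C c * D) (fun i => C c * N i) := by
  unfold Ident at h ⊢
  simp only [pderiv_C_mul]
  rw [mul_pow, h, mul_left_comm]
  congr 1
  rw [Finset.mul_sum]
  refine Finset.sum_congr rfl fun i _ => ?_
  ring

/-- lifting a polynomial and a family of polynomials along a ring homomorphism -/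
lemma exists_lift {R S : Type*} [CommRing R] [CommRing S] (f : R →+* S)
    (D : MvPolynomial (Fin m) S) (hD : ∀ d, coeff d D ∈ Set.range f) :
    ∃ D' : MvPolynomial (Fin m) R, MvPolynomial.map f D' = D := by
  have h : D ∈ Set.range (MvPolynomial.map f) := by
    rw [mem_range_map_iff_coeffs_subset]
    intro c hc
    rw [Finset.mem_coe, mem_coeffs_iff] at hc
    obtain ⟨d, -, rfl⟩ := hc
    exact hD d
  exact h

theorem number_field_contradiction (L : Type*) [Field L] [NumberField L] (hm : m ≠ 0)
    (D : MvPolynomial (Fin m) L) (N : Fin m → MvPolynomial (Fin m) L) (d0 : Fin m →₀ ℕ)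
    (hd0 : coeff d0 D = 1) (h : Ident D N) : False := by
  classical
  let s : Finset L := D.coeffs ∪ Finset.univ.biUnion fun i => (N i).coeffs
  obtain ⟨y, hy0, hy⟩ := exists_integral_multiples ℤ ℚ s
  have hcoeff : ∀ (G : MvPolynomial (Fin m) L), G.coeffs ⊆ s → ∀ d,
      coeff d (C ((y : ℤ) : L) * G) ∈ Set.range (algebraMap (integralClosure ℤ L) L) := by
    intro G hG d
    rw [coeff_C_mul]
    by_cases hd : coeff d G = 0
    · exact ⟨0, by rw [hd, mul_zero, map_zero]⟩
    · have h1 : coeff d G ∈ s := hG (coeff_mem_coeffs d hd)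
      have h2 := hy _ h1
      rw [zsmul_eq_mul] at h2
      exact ⟨⟨_, h2⟩, rfl⟩
  obtain ⟨DO, hDO⟩ := exists_lift _ _ (hcoeff D Finset.subset_union_left)
  have hN : ∀ i, ∃ NO, MvPolynomial.map (algebraMap (integralClosure ℤ L) L) NO
      = C ((y : ℤ) : L) * N i := by
    intro i
    refine exists_lift _ _ (hcoeff (N i) ?_)
    exact (Finset.subset_biUnion_of_mem (fun i => (N i).coeffs) (Finset.mem_univ i)).trans
      Finset.subset_union_right
  choose NO hNO using hN
  have hinj : Function.Injective (algebraMap (integralClosure ℤ L) L) :=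
    Subtype.val_injective
  have hO : Ident DO NO := by
    apply Ident.of_map _ hinj
    have := h.smul ((y : ℤ) : L)
    simp only [← hDO, ← hNO] at this
    exact this
  have hd0O : coeff d0 DO = ((y : ℤ) : integralClosure ℤ L) := by
    apply hinj
    rw [← coeff_map, hDO, coeff_C_mul, hd0, mul_one]
    simp
  obtain ⟨p, hp, hpy, hpm⟩ := Nat.exists_prime_gt_modEq_one (k := m) y.natAbs hm
  have : Fact p.Prime := ⟨hp⟩
  have hmax : (Ideal.span {(p : ℤ)}).IsMaximal := by
    have hprime : Prime (p : ℤ) := Nat.prime_iff_prime_int.1 hp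
    exact PrincipalIdealRing.isMaximal_of_irreducible hprime.irreducible
  obtain ⟨Q, hQ, hQp⟩ := Ideal.exists_ideal_over_maximal_of_isIntegral
    (S := integralClosure ℤ L) (Ideal.span {(p : ℤ)}) (by
      have : RingHom.ker (algebraMap ℤ (integralClosure ℤ L)) = ⊥ := by
        rw [← RingHom.injective_iff_ker_eq_bot]
        exact FaithfulSMul.algebraMap_injective ℤ _
      rw [this]; exact bot_le)
  let _ : Field (integralClosure ℤ L ⧸ Q) := Ideal.Quotient.field Q
  have hker : ∀ z : ℤ, ((z : ℤ) : integralClosure ℤ L ⧸ Q) = 0 ↔ (p : ℤ) ∣ z := by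
    intro z
    rw [← Ideal.mem_span_singleton, ← hQp, Ideal.mem_comap, ← Ideal.Quotient.eq_zero_iff_mem]
    simp
  have : CharP (integralClosure ℤ L ⧸ Q) p := by
    refine ⟨fun x => ?_⟩
    have := hker x
    rw [Int.natCast_dvd_natCast] at this
    rw [← this]
    simp
  have hfin := (hO.map (Ideal.Quotient.mk Q))
  obtain ⟨a, ha⟩ : ∃ a, p - 1 = m * a := by
    have := (Nat.modEq_iff_dvd' hp.one_lt.le).1 hpm.symm
    exact this
  refine charP_contradiction p hm a ha _ _ ?_ hfin
  intro hz
  have h1 := congrArg (coeff d0) hz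
  rw [coeff_map, hd0O, coeff_zero] at h1
  have h2 : ((y : ℤ) : integralClosure ℤ L ⧸ Q) = 0 := by
    simpa using h1
  rw [hker] at h2
  have h3 := Int.natAbs_dvd_natAbs.2 h2
  have h4 := Nat.le_of_dvd (Int.natAbs_pos.2 hy0) h3
  simp at h4
  omega

theorem exists_hom_numberField (B : Type*) [CommRing B] [Nontrivial B] [Algebra ℚ B]
    [Algebra.FiniteType ℚ B] :
    ∃ M : Ideal B, ∃ _ : M.IsMaximal, @NumberField (B ⧸ M) (Ideal.Quotient.field M) := by
  obtain ⟨M, hM⟩ := Ideal.exists_maximal B
  refine ⟨M, hM, ?_⟩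
  let F : Field (B ⧸ M) := Ideal.Quotient.field M
  have hft : Algebra.FiniteType ℚ (B ⧸ M) := inferInstance
  have hfin : Module.Finite ℚ (B ⧸ M) := finite_of_finite_type_of_isJacobsonRing ℚ (B ⧸ M)
  have hcz : CharZero (B ⧸ M) := algebraRat.charZero _
  refine @NumberField.mk (B ⧸ M) F hcz ?_
  convert hfin
  exact Subsingleton.elim _ _

theorem char_zero_contradiction (k : Type*) [Field k] [CharZero k] (hm : m ≠ 0)
    (D : MvPolynomial (Fin m) k) (N : Fin m → MvPolynomial (Fin m) k) (hD : D ≠ 0)
    (h : Ident D N) : False := by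
  classical
  obtain ⟨d0, hd0⟩ := Finset.nonempty_iff_ne_empty.2
    (fun h => hD (MvPolynomial.support_eq_empty.1 h) : D.support ≠ ∅)
  have hc : coeff d0 D ≠ 0 := mem_support_iff.1 hd0
  have h1 := h.smul (coeff d0 D)⁻¹
  set D1 := C (coeff d0 D)⁻¹ * D with hD1
  set N1 := fun i => C (coeff d0 D)⁻¹ * N i with hN1
  have hone : coeff d0 D1 = 1 := by
    rw [hD1, coeff_C_mul, inv_mul_cancel₀ hc]
  let s : Finset k := D1.coeffs ∪ Finset.univ.biUnion fun i => (N1 i).coeffs
  let B : Subalgebra ℚ k := Algebra.adjoin ℚ (s : Set k)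
  have hft : Algebra.FiniteType ℚ B := by
    rw [← Subalgebra.fg_iff_finiteType]
    exact Subalgebra.fg_adjoin_finset s
  have hcoeff : ∀ (G : MvPolynomial (Fin m) k), G.coeffs ⊆ s → ∀ d,
      coeff d G ∈ Set.range (algebraMap B k) := by
    intro G hG d
    by_cases hd : coeff d G = 0
    · exact ⟨0, by rw [hd, map_zero]⟩
    · exact ⟨⟨_, Algebra.subset_adjoin (hG (coeff_mem_coeffs d hd))⟩, rfl⟩
  obtain ⟨DB, hDB⟩ := exists_lift _ _ (hcoeff D1 Finset.subset_union_left)
  have hN : ∀ i, ∃ NB, MvPolynomial.map (algebraMap B k) NB = N1 i := by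
    intro i
    refine exists_lift _ _ (hcoeff (N1 i) ?_)
    exact (Finset.subset_biUnion_of_mem (fun i => (N1 i).coeffs) (Finset.mem_univ i)).trans
      Finset.subset_union_right
  choose NB hNB using hN
  have hinj : Function.Injective (algebraMap B k) := Subtype.val_injective
  have hB : Ident DB NB := by
    apply Ident.of_map _ hinj
    rw [hDB, funext hNB]
    exact h1
  have hBone : coeff d0 DB = 1 := by
    apply hinj
    rw [← coeff_map, hDB, hone, map_one]
  obtain ⟨M, hM, hnf⟩ := exists_hom_numberField B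
  refine @number_field_contradiction m (B ⧸ M) (Ideal.Quotient.field M) hnf hm _ _ d0 ?_
    (hB.map (Ideal.Quotient.mk M))
  rw [coeff_map, hBone, map_one]

end Reduction

section Main

variable {k : Type*} [Field k] {m : ℕ}

lemma exists_extension {A K : Type*} [CommRing A] [IsDomain A]
    [Field K] [Algebra k A] [Algebra A K] [Algebra k K] [IsScalarTower k A K]
    [IsFractionRing A K] (d : Derivation k A K) :
    ∃ D : Derivation k K K, ∀ a, D (algebraMap A K a) = d a := by
  let l : Ω[A⁄k] →ₗ[A] K := d.liftKaehlerDifferential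
  have h : ∀ x : nonZeroDivisors A, IsUnit (algebraMap A (Module.End A K) x) := by
    intro x
    rw [Module.End.isUnit_iff]
    have hx : algebraMap A K x ≠ 0 :=
      IsFractionRing.to_map_ne_zero_of_mem_nonZeroDivisors x.2
    constructor
    · intro a b hab
      simp only [Module.algebraMap_end_apply, Algebra.smul_def] at hab
      exact mul_left_cancel₀ hx hab
    · intro a
      refine ⟨(algebraMap A K x)⁻¹ * a, ?_⟩
      simp only [Module.algebraMap_end_apply, Algebra.smul_def]
      field_simp
  let l' : Ω[K⁄k] →ₗ[A] K :=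
    IsLocalizedModule.lift (nonZeroDivisors A) (KaehlerDifferential.map k k A K) l h
  let l'' : Ω[K⁄k] →ₗ[K] K := LinearMap.extendScalarsOfIsLocalization (nonZeroDivisors A) K l'
  refine ⟨l''.compDer (KaehlerDifferential.D k K), fun a => ?_⟩
  have h1 : KaehlerDifferential.D k K (algebraMap A K a) =
      KaehlerDifferential.map k k A K (KaehlerDifferential.D k A a) := by
    simp
  change l' (KaehlerDifferential.D k K (algebraMap A K a)) = d a
  rw [h1]
  have := IsLocalizedModule.lift_apply (nonZeroDivisors A) (KaehlerDifferential.map k k A K) l h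
    (KaehlerDifferential.D k A a)
  rw [this]
  simp [l]

lemma exists_partials (k : Type*) [Field k] (m : ℕ) :
    ∃ δ : Fin m → Derivation k (RF k m) (RF k m), IsPartials k m δ := by
  classical
  have h : ∀ i : Fin m, ∃ D : Derivation k (RF k m) (RF k m), ∀ j,
      D (xvar k m j) = if i = j then 1 else 0 := by
    intro i
    obtain ⟨D, hD⟩ := exists_extension (k := k) (A := MvPolynomial (Fin m) k) (K := RF k m)
      (mkDerivation k fun j => if i = j then 1 else 0)
    exact ⟨D, fun j => by rw [xvar, hD, mkDerivation_X]⟩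
  choose δ hδ using h
  exact ⟨δ, hδ⟩

lemma IsPartials.apply {δ : Fin m → Derivation k (RF k m) (RF k m)} (hδ : IsPartials k m δ)
    (i : Fin m) (G : MvPolynomial (Fin m) k) :
    δ i (algebraMap _ _ G) = algebraMap _ _ (pderiv i G) := by
  classical
  induction G using MvPolynomial.induction_on with
  | C a =>
    rw [pderiv_C, map_zero]
    have : algebraMap (MvPolynomial (Fin m) k) (RF k m) (C a) = algebraMap k (RF k m) a := by
      rw [← algebraMap_eq, ← IsScalarTower.algebraMap_apply]
    rw [this, Derivation.map_algebraMap]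
  | add p q hp hq => simp only [map_add, hp, hq]
  | mul_X p j hp =>
    rw [map_mul, Derivation.leibniz, hp, Derivation.leibniz, pderiv_X]
    have := hδ i j
    rw [xvar] at this
    rw [this]
    simp only [smul_eq_mul, map_add, map_mul, Pi.single_apply]
    congr 1
    split_ifs with h1 h2 h2
    · simp
    · exact absurd h1.symm h2
    · exact absurd h2.symm h1
    · simp

theorem not_integrable (k : Type*) [Field k] [CharZero k] (m : ℕ) (hm : m ≠ 0) :
    ¬ RationallyIntegrable k m (1 / ∑ i, xvar k m i ^ m) := by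
  rintro ⟨δ, hδ, u, hu⟩
  set a := algebraMap (MvPolynomial (Fin m) k) (RF k m) with ha
  have hinj : Function.Injective a := IsFractionRing.injective _ _
  obtain ⟨⟨D, hDmem⟩, hb⟩ := IsLocalization.exist_integer_multiples_of_finite
    (nonZeroDivisors (MvPolynomial (Fin m) k)) u
  choose N hN using hb
  have hD0 : D ≠ 0 := nonZeroDivisors.ne_zero hDmem
  have hN' : ∀ i, a (N i) = a D * u i := by
    intro i
    have h := hN i
    rw [Algebra.smul_def] at h
    exact h
  have hFa : ∑ i, xvar k m i ^ m = a (∑ i, X i ^ m) := by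
    rw [map_sum]
    refine Finset.sum_congr rfl fun i _ => ?_
    rw [map_pow]; rfl
  have hF0 : a (∑ i, X i ^ m) ≠ 0 := by
    intro h
    have h1 : (∑ i : Fin m, X i ^ m : MvPolynomial (Fin m) k) = 0 := by
      apply hinj; rw [h, map_zero]
    have h2 := congrArg (eval (fun _ => (1 : k))) h1
    simp at h2
    exact hm h2
  have hder : ∀ i, a D ^ 2 * δ i (u i) = a (D * pderiv i (N i) - N i * pderiv i D) := by
    intro i
    have h1 := hδ.apply i (N i)
    have h2 := hδ.apply i D
    rw [← ha] at h1 h2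
    rw [hN', Derivation.leibniz, h2] at h1
    simp only [smul_eq_mul] at h1
    rw [map_sub, map_mul, map_mul, ← h1, hN']
    ring
  apply char_zero_contradiction k hm D N hD0
  apply hinj
  rw [map_mul, map_sum a (fun i => D * pderiv i (N i) - N i * pderiv i D)]
  rw [← Finset.sum_congr rfl (fun i _ => hder i), ← Finset.mul_sum, ← hu, hFa, map_pow]
  field_simp

theorem integrable_of_ne (k : Type*) [Field k] [CharZero k] (m n : ℕ) (hm : m ≠ 0) (hn : n ≠ m) :
    RationallyIntegrable k m (1 / ∑ i, xvar k m i ^ n) := by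
  classical
  obtain ⟨δ, hδ⟩ := exists_partials k m
  set F : RF k m := ∑ i, xvar k m i ^ n with hF
  have hc : ((m : RF k m) - n) ≠ 0 := by
    intro h
    apply hn
    have h2 : (m : RF k m) = n := sub_eq_zero.1 h
    exact (Nat.cast_injective h2).symm
  have hF0 : F ≠ 0 := by
    intro h
    have h0 : algebraMap (MvPolynomial (Fin m) k) (RF k m) (∑ i, X i ^ n) = 0 := by
      rw [map_sum, ← h, hF]
      refine Finset.sum_congr rfl fun i _ => ?_
      rw [map_pow]; rfl
    have h1 : (∑ i : Fin m, X i ^ n : MvPolynomial (Fin m) k) = 0 := by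
      apply IsFractionRing.injective (MvPolynomial (Fin m) k) (RF k m)
      rw [h0, map_zero]
    have h2 := congrArg (eval (fun _ => (1 : k))) h1
    simp at h2
    exact hm h2
  refine ⟨δ, hδ, fun i => xvar k m i * (((m : RF k m) - n)⁻¹ * F⁻¹), ?_⟩
  have hcd : ∀ i, δ i (((m : RF k m) - n)⁻¹) = 0 := by
    intro i
    have : ((m : RF k m) - n)⁻¹ = algebraMap k (RF k m) (((m : k) - n)⁻¹) := by
      simp
    rw [this, Derivation.map_algebraMap]
  have hdF : ∀ i, δ i F = n * xvar k m i ^ (n - 1) := by
    intro i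
    rw [hF, map_sum, Finset.sum_eq_single i]
    · rw [Derivation.leibniz_pow, hδ i i, if_pos rfl]
      simp
    · intro j _ hj
      rw [Derivation.leibniz_pow, hδ i j, if_neg hj.symm]
      simp
    · intro h
      exact absurd (Finset.mem_univ i) h
  have hterm : ∀ i, δ i (xvar k m i * (((m : RF k m) - n)⁻¹ * F⁻¹))
      = ((m : RF k m) - n)⁻¹ * F⁻¹ - ((m : RF k m) - n)⁻¹ * (n * xvar k m i ^ n) * (F⁻¹) ^ 2 := by
    intro i
    have h1 : δ i F⁻¹ = - (F⁻¹) ^ 2 * (n * xvar k m i ^ (n - 1)) := by
      rw [Derivation.leibniz_inv, hdF]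
      simp
    have h2 : (n : RF k m) * xvar k m i ^ n = xvar k m i * (n * xvar k m i ^ (n - 1)) := by
      rcases Nat.eq_zero_or_pos n with h0 | h0
      · subst h0; simp
      · obtain ⟨r, rfl⟩ : ∃ r, n = r + 1 := ⟨n - 1, by omega⟩
        simp only [Nat.add_sub_cancel]
        ring
    rw [Derivation.leibniz, Derivation.leibniz, hcd, h1, hδ i i, if_pos rfl, h2]
    simp only [smul_eq_mul]
    ring
  have hsum : ∑ i : Fin m, ((m : RF k m) - n)⁻¹ * (n * xvar k m i ^ n) * (F⁻¹) ^ 2
      = ((m : RF k m) - n)⁻¹ * (n * F) * (F⁻¹) ^ 2 := by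
    rw [hF, Finset.mul_sum, Finset.mul_sum, Finset.sum_mul]
  rw [Finset.sum_congr rfl fun i _ => hterm i, Finset.sum_sub_distrib, hsum]
  simp only [Finset.sum_const, Finset.card_univ, Fintype.card_fin, nsmul_eq_mul]
  field_simp

end Main

/-- Over a field `k` of characteristic zero, for every `m ≥ 1` and every `n`, the rational function
`1 / (x_1^n + ⋯ + x_m^n)` is rationally integrable with respect to `x_1, …, x_m` if and only if
`n ≠ m`. -/
theorem result (k : Type*) [Field k] [CharZero k] (m : ℕ) (hm : 1 ≤ m) (n : ℕ) :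
    RationallyIntegrable k m (1 / ∑ i, xvar k m i ^ n) ↔ n ≠ m := by
  constructor
  · rintro h rfl
    exact not_integrable k n (by omega) h
  · exact integrable_of_ne k m n (by omega)

end Pool.Agent.Results.MP_4362c3_ag.FermatReciprocal
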